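import Pool.Agent.Q155.NB.Stm
import Pool.Agent.Y356.CQ.EQ

/-! Lemma job NB-BOX for helper155: from the tables of symbols to the count in a box
(after `Pool.Agent.Q34.NL.box` of helper34). -/

set_option autoImplicit false

open scoped Classical

namespace Pool.Agent.Q144.NB

open Finset Filter
open Q44.BM (Fam Ok SS RR HM)
open Pool.Agent.Y703.CQ (nr sg prs HB)
open Pool.Agent.Y657.CQ (HB_sub)
open Q155.NB

/-- **NB-BOX.** -/
theorem box : S_BOX := by
  intro Φ Λ _ lb N T W ε hε hLab hLoc ι _ _ J1 C X κ S₀ hκ hCX hHB hS₀ hC hdis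
  set S₁ := S₀ ∪ W with hS₁d
  set R : ℝ := 2 ^ (prs J1).card * (κ * ∏ j, (X j : ℝ)) with hR
  have hR0 : 0 ≤ R := mul_nonneg (by positivity)
    (mul_nonneg hκ (Finset.prod_nonneg fun j _ => by positivity))
  have hTu : ∀ p ∈ Fintype.piFinset C, Tu Φ J1 S₁ p := by
    intro p hp
    rw [Fintype.mem_piFinset] at hp
    refine ⟨?_, fun i => hC i _ (hp i)⟩
    intro i j hij
    by_contra hne
    have h1 := Finset.disjoint_left.1 (hdis i j hne) (hp i)
    rw [hij] at h1
    exact h1 (hp j)
  -- the part with given labels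
  have h1 : ∀ β : ι → (S₁ → ZMod 2) × (S₁ → ZMod 2) × Λ,
      (∃ q ∈ Fintype.piFinset C, (fun i => lab lb S₁ (q i)) = β ∧ N S₀ (univ.image q)) →
      (((Fintype.piFinset C).filter fun p => (fun i => lab lb S₁ (p i)) = β).card : ℝ) ≤
        (((Fintype.piFinset C).filter fun p => (fun i => lab lb S₁ (p i)) = β ∧
          T (S₀ ∪ univ.image p)).card : ℝ) +
        ε * (((Fintype.piFinset C).filter fun p => (fun i => lab lb S₁ (p i)) = β).card : ℝ) +
        R := by
    rintro β ⟨q, hq, hqβ, hqN⟩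
    obtain ⟨Q, hQ1, hQ2⟩ := hLoc ι J1 S₀ q hS₀ (hTu q hq) hqN
    set C' : ι → Finset ℕ := fun i => (C i).filter fun q => lab lb S₁ q = β i with hC'
    have hpi : (Fintype.piFinset C).filter (fun p => (fun i => lab lb S₁ (p i)) = β) =
        Fintype.piFinset C' := by
      ext p
      simp only [Finset.mem_filter, Fintype.mem_piFinset, hC']
      constructor
      · rintro ⟨h2, h3⟩ i
        exact ⟨h2 i, congrFun h3 i⟩
      · intro h2
        exact ⟨fun i => (h2 i).1, funext fun i => (h2 i).2⟩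
    have h3 := Pool.Agent.Y356.CQ.t_EQ ι J1 C' X κ hκ
      (fun i => (Finset.card_le_card (Finset.filter_subset _ _)).trans (hCX i))
      (HB_sub hHB fun i q => lab lb S₁ q = β i) Q
    have h4 : (((Fintype.piFinset C').filter fun p =>
        Q fun e => nr (p e.1.1) (p e.1.2)).card : ℝ) ≤
        (((Fintype.piFinset C).filter fun p => (fun i => lab lb S₁ (p i)) = β ∧
          T (S₀ ∪ univ.image p)).card : ℝ) := by
      have h5 : ((Fintype.piFinset C').filter fun p => Q fun e => nr (p e.1.1) (p e.1.2)) ⊆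
          ((Fintype.piFinset C).filter fun p => (fun i => lab lb S₁ (p i)) = β ∧
          T (S₀ ∪ univ.image p)) := by
        intro p hp
        rw [← hpi] at hp
        simp only [Finset.mem_filter] at hp ⊢
        refine ⟨hp.1.1, hp.1.2, hQ2 p (hTu p hp.1.1) (fun i => ?_) hp.2⟩
        have h6 := congrFun (hp.1.2.trans hqβ.symm) i
        exact h6
      exact_mod_cast Finset.card_le_card h5
    have h5 : (((Fintype.piFinset C').card : ℕ) : ℝ) = ∏ j, ((C' j).card : ℝ) := by
      rw [Fintype.card_piFinset]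
      push_cast
      rfl
    rw [hpi, h5]
    set n : ℝ := (((Fintype.piFinset C').filter fun p =>
          Q fun e => nr (p e.1.1) (p e.1.2)).card : ℝ) with hn
    set P : ℝ := ∏ j, ((C' j).card : ℝ) with hP
    have hP0 : 0 ≤ P := Finset.prod_nonneg fun j _ => by positivity
    have h2p : (0 : ℝ) < 2 ^ (prs J1).card := by positivity
    have h6 : (1 - ε) ≤ ((univ.filter Q).card : ℝ) / 2 ^ (prs J1).card := by
      rw [le_div_iff₀ h2p]
      have h7 : (univ.filter Q).card + (univ.filter fun α => ¬ Q α).card =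
          2 ^ (prs J1).card := by
        rw [Finset.card_filter_add_card_filter_not, Finset.card_univ, Fintype.card_fun, ZMod.card,
          Fintype.card_coe]
      have h8 : ((univ.filter Q).card : ℝ) + ((univ.filter fun α => ¬ Q α).card : ℝ) =
          2 ^ (prs J1).card := by exact_mod_cast h7
      linarith
    have h7 := (abs_le.1 h3).1
    have h8 : (1 - ε) * P ≤ ((univ.filter Q).card : ℝ) / 2 ^ (prs J1).card * P :=
      mul_le_mul_of_nonneg_right h6 hP0
    have h9 : -R ≤ n - ((univ.filter Q).card : ℝ) / 2 ^ (prs J1).card * P := h7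
    have h10 : (1 - ε) * P = P - ε * P := by ring
    linarith
  -- sum over the labels
  set LL := univ.filter (fun β : ι → (S₁ → ZMod 2) × (S₁ → ZMod 2) × Λ =>
    ∃ q ∈ Fintype.piFinset C, (fun i => lab lb S₁ (q i)) = β ∧ N S₀ (univ.image q)) with hLL
  have hfib : ∀ T' : (ι → ℕ) → Prop,
      (((Fintype.piFinset C).filter fun p => N S₀ (univ.image p) ∧ T' p).card : ℝ) =
      ∑ β ∈ LL, (((Fintype.piFinset C).filter fun p =>
        (fun i => lab lb S₁ (p i)) = β ∧ T' p).card : ℝ) := by
    intro T'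
    rw [Finset.card_eq_sum_card_fiberwise (f := fun (p : ι → ℕ) (i : ι) => lab lb S₁ (p i))
      (t := LL) (by
        intro p hp
        rw [Finset.mem_coe, Finset.mem_filter] at hp
        rw [Finset.mem_coe, hLL, Finset.mem_filter]
        exact ⟨Finset.mem_univ _, p, hp.1, rfl, hp.2.1⟩)]
    push_cast
    refine Finset.sum_congr rfl fun β hβ => ?_
    rw [hLL, Finset.mem_filter] at hβ
    congr 2
    ext p
    simp only [Finset.mem_filter]
    constructor
    · rintro ⟨⟨h3, h4, h4'⟩, h5⟩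
      exact ⟨h3, h5, h4'⟩
    · rintro ⟨h3, h4, h5⟩
      refine ⟨⟨h3, ?_, h5⟩, h4⟩
      obtain ⟨-, q, hq, hqβ, hqN⟩ := hβ
      refine hLab ι J1 S₀ q p hS₀ (hTu q hq) (hTu p h3) (fun i => ?_) hqN
      exact congrFun (hqβ.trans h4.symm) i
  have hf1 := hfib fun p => T (S₀ ∪ univ.image p)
  have hf2 := hfib fun _ => True
  simp only [and_true] at hf2
  rw [hf1, hf2, Finset.mul_sum]
  refine (Finset.sum_le_sum fun β hβ => h1 β (Finset.mem_filter.1 hβ).2).trans ?_
  rw [Finset.sum_add_distrib, Finset.sum_add_distrib, Finset.sum_const, nsmul_eq_mul]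
  have h5 : ((LL.card : ℕ) : ℝ) ≤ (Fintype.card Λ : ℝ) ^ (Fintype.card ι) *
      2 ^ (2 * S₁.card * Fintype.card ι) := by
    have h6 : LL.card ≤ Fintype.card (ι → (S₁ → ZMod 2) × (S₁ → ZMod 2) × Λ) :=
      Finset.card_le_univ _
    have h7 : Fintype.card (ι → (S₁ → ZMod 2) × (S₁ → ZMod 2) × Λ) =
        (Fintype.card Λ) ^ (Fintype.card ι) * 2 ^ (2 * S₁.card * Fintype.card ι) := by
      rw [Fintype.card_fun, Fintype.card_prod, Fintype.card_prod, Fintype.card_fun,
        ZMod.card, Fintype.card_coe, ← mul_assoc, ← pow_add, mul_pow, ← pow_mul, mul_comm]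
      congr 3
      ring
    rw [h7] at h6
    exact_mod_cast h6
  have h6 := mul_le_mul_of_nonneg_right h5 hR0
  have h7 : (Fintype.card Λ : ℝ) ^ (Fintype.card ι) *
      (2 ^ (2 * S₁.card * Fintype.card ι + (prs J1).card) * (κ * ∏ j, (X j : ℝ))) =
      (Fintype.card Λ : ℝ) ^ (Fintype.card ι) * 2 ^ (2 * S₁.card * Fintype.card ι) * R := by
    rw [hR, pow_add]
    ring
  rw [h7]
  linarith

end Pool.Agent.Q144.NB
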